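import Pool.Agent.MP_7b591b_pr.Core

/-!
The smoothed tail bound of the condition number for all matrices `Abar`, all `σ > 0`, all `x > 0`,
with an explicit constant. For `σ ≤ 1` and `Abar` of norm at most `√n` it is the bound `430 n / (x σ)`.
-/

set_option autoImplicit false

open MeasureTheory ProbabilityTheory

namespace Pool.Agent.Results.MP_7b591b_pr.AllScales

/-- The spectral norm of a real square matrix. -/
noncomputable def spec {n : ℕ} (A : Matrix (Fin n) (Fin n) ℝ) : ℝ :=
  ‖Matrix.toEuclideanCLM (𝕜 := ℝ) A‖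

/-- The condition number of a real square matrix; it is infinite if the matrix is singular. -/
noncomputable def kappa {n : ℕ} (A : Matrix (Fin n) (Fin n) ℝ) : ENNReal :=
  if A.det = 0 then ⊤ else ENNReal.ofReal (spec A * spec A⁻¹)

/-- The law of a real `n × n` matrix with independent standard Gaussian entries. -/
noncomputable def gauss (n : ℕ) : Measure (Fin n → Fin n → ℝ) :=
  Measure.pi fun _ => Measure.pi fun _ => gaussianReal 0 1

theorem spec_smul {n : ℕ} (c : ℝ) (A : Matrix (Fin n) (Fin n) ℝ) :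
    spec (c • A) = |c| * spec A := by
  unfold spec
  rw [map_smul, norm_smul, Real.norm_eq_abs]

theorem spec_nonneg {n : ℕ} (A : Matrix (Fin n) (Fin n) ℝ) : 0 ≤ spec A := norm_nonneg _

/-- **Smoothed tail bound.** For every real `n × n` matrix `Abar`, every `σ > 0` and every `x > 0`
the condition number of `Abar + σ G` is at least `x` with probability at most
`430 max (n, √n ‖Abar‖ / σ) / x`. -/
theorem result (n : ℕ) (hn : 1 ≤ n) (Abar : Matrix (Fin n) (Fin n) ℝ) (σ : ℝ) (hσ : 0 < σ)
    (x : ℝ) (hx : 0 < x) :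
    gauss n {G | ENNReal.ofReal x ≤ kappa (Abar + σ • Matrix.of G)} ≤
      ENNReal.ofReal (430 * max (n : ℝ) (Real.sqrt n * spec Abar / σ) / x) := by
  have hn0 : (0 : ℝ) < n := by exact_mod_cast hn
  have hs0 : 0 < Real.sqrt n := Real.sqrt_pos.2 hn0
  have hss : Real.sqrt n * Real.sqrt n = n := Real.mul_self_sqrt hn0.le
  set M : ℝ := max (spec Abar / Real.sqrt n) σ with hM
  have hM0 : 0 < M := lt_of_lt_of_le hσ (le_max_right _ _)
  have hA : ‖Matrix.toEuclideanCLM (𝕜 := ℝ) (M⁻¹ • Abar)‖ ≤ Real.sqrt n := by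
    have h1 : spec (M⁻¹ • Abar) = M⁻¹ * spec Abar := by
      rw [spec_smul, abs_of_pos (inv_pos.2 hM0)]
    show spec (M⁻¹ • Abar) ≤ _
    rw [h1, inv_mul_le_iff₀ hM0, ← div_le_iff₀ hs0]
    exact le_max_left _ _
  have hσ0 : 0 < σ / M := by positivity
  have hσ1 : σ / M ≤ 1 := by
    rw [div_le_one hM0]
    exact le_max_right _ _
  have h := Pool.Agent.CondNumK.core n hn (M⁻¹ • Abar) hA (σ / M) hσ0 hσ1 x hx
  have hval : 430 * (n : ℝ) / (x * (σ / M)) =
      430 * max (n : ℝ) (Real.sqrt n * spec Abar / σ) / x := by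
    have h1 : (n : ℝ) * M / σ = max (n : ℝ) (Real.sqrt n * spec Abar / σ) := by
      rw [hM, mul_div_assoc, ← max_div_div_right hσ.le, mul_max_of_nonneg _ _ hn0.le,
        div_self hσ.ne', mul_one, max_comm]
      congr 1
      have h2 : (n : ℝ) * (spec Abar / Real.sqrt n / σ) =
          Real.sqrt n * Real.sqrt n * (spec Abar / Real.sqrt n / σ) := by rw [hss]
      rw [h2]
      field_simp
    rw [← h1]
    field_simp
  rw [hval] at h
  refine le_trans (measure_mono ?_) h
  intro G hG
  have hmat : M⁻¹ • Abar + (σ / M) • Matrix.of G = M⁻¹ • (Abar + σ • Matrix.of G) := by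
    rw [smul_add, smul_smul]
    congr 2
    field_simp
  show (M⁻¹ • Abar + (σ / M) • Matrix.of G).det = 0 ∨
    x ≤ spec (M⁻¹ • Abar + (σ / M) • Matrix.of G) *
      spec (M⁻¹ • Abar + (σ / M) • Matrix.of G)⁻¹
  rw [hmat]
  set A := Abar + σ • Matrix.of G with hAG
  have hG' : ENNReal.ofReal x ≤ kappa A := hG
  by_cases hdet : A.det = 0
  · left
    rw [Matrix.det_smul, hdet, mul_zero]
  · right
    unfold kappa at hG'
    rw [if_neg hdet, ENNReal.ofReal_le_ofReal_iff (mul_nonneg (spec_nonneg _) (spec_nonneg _))]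
      at hG'
    have hinv : (M⁻¹ • A)⁻¹ = M • A⁻¹ := by
      apply Matrix.inv_eq_right_inv
      rw [Matrix.smul_mul, Matrix.mul_smul, smul_smul, inv_mul_cancel₀ hM0.ne', one_smul]
      exact Matrix.mul_nonsing_inv _ (isUnit_iff_ne_zero.2 hdet)
    rw [hinv, spec_smul, spec_smul, abs_of_pos (inv_pos.2 hM0), abs_of_pos hM0]
    have h2 : M⁻¹ * spec A * (M * spec A⁻¹) = spec A * spec A⁻¹ := by
      field_simp
    rw [h2]
    exact hG'

end Pool.Agent.Results.MP_7b591b_pr.AllScales
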